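import Mathlib

/-!
# Every number between `1` and `n!` is a number of permuted products

The group is a central extension of the additive group of functions `ℕ → ℤ` by `ZMod k`, with
generators satisfying `g j * g i = ζ (j!) * (g i * g j)` for `i < j`.
-/

set_option autoImplicit false

open Finset

namespace Pool.Agent.Results.MP_71df81_al.PermutedProducts

/-- the set of the products of the `g i` in all possible orders -/
def P {G : Type} [Group G] {n : ℕ} (g : Fin n → G) : Set G :=
  {x | ∃ σ : Equiv.Perm (Fin n), x = (List.ofFn fun i => g (σ i)).prod}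

section Abstract

variable {G : Type} [Group G] {k : ℕ} (ζ : ZMod k → G) (g : ℕ → G) (n : ℕ)

/-- the hypotheses on the group -/
structure Good : Prop where
  zero : ζ 0 = 1
  add : ∀ a b, ζ (a + b) = ζ a * ζ b
  cent : ∀ a x, ζ a * x = x * ζ a
  comm : ∀ i j, i < j → j < n → g j * g i = ζ (j.factorial) * (g i * g j)

variable {ζ g n}

lemma move (h : Good ζ g n) {m : ℕ} (hm : m < n) (B : List ℕ) (hB : ∀ b ∈ B, b < m) :
    g m * (B.map g).prod = ζ ((B.length * m.factorial : ℕ)) * ((B.map g).prod * g m) := by
  induction B with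
  | nil => simp [h.zero]
  | cons b B ih =>
    have h1 := ih fun x hx => hB x (List.mem_cons_of_mem _ hx)
    have h2 := h.comm b m (hB b List.mem_cons_self) hm
    rw [List.map_cons, List.prod_cons, ← mul_assoc, h2, mul_assoc, mul_assoc, h1]
    have h3 : ((List.length (b :: B) * m.factorial : ℕ) : ZMod k) =
        (m.factorial : ZMod k) + ((B.length * m.factorial : ℕ) : ZMod k) := by
      rw [List.length_cons]
      push_cast
      ring
    rw [h3, h.add]
    simp only [mul_assoc]
    rw [← mul_assoc (g b) (ζ _), ← h.cent _ (g b)]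
    simp only [mul_assoc]

lemma exists_list (h : Good ζ g n) : ∀ m ≤ n, ∀ N < m.factorial, ∃ l : List ℕ,
    l.Perm (List.range m) ∧ (l.map g).prod = ζ (N : ℕ) * ((List.range m).map g).prod := by
  intro m
  induction m with
  | zero =>
    intro _ N hN
    have : N = 0 := by simpa using hN
    subst this
    exact ⟨[], by simp, by simp [h.zero]⟩
  | succ m ih =>
    intro hm N hN
    have hpos := Nat.factorial_pos m
    have hr : N / m.factorial < m + 1 := by
      rw [Nat.div_lt_iff_lt_mul hpos, ← Nat.factorial_succ]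
      exact hN
    obtain ⟨l', hl', hp⟩ := ih (by omega) (N % m.factorial) (Nat.mod_lt _ hpos)
    have hlen : l'.length = m := by rw [hl'.length_eq, List.length_range]
    have hN2 : m.factorial * (N / m.factorial) + N % m.factorial = N := Nat.div_add_mod _ _
    generalize N / m.factorial = r at hr hN2
    have hAB : l'.take (m - r) ++ l'.drop (m - r) = l' := List.take_append_drop _ _
    have hB : (l'.drop (m - r)).length = r := by
      rw [List.length_drop, hlen]
      omega
    have hmem : ∀ b ∈ l'.drop (m - r), b < m := fun b hb =>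
      List.mem_range.1 (hl'.mem_iff.1 (List.mem_of_mem_drop hb))
    refine ⟨l'.take (m - r) ++ m :: l'.drop (m - r), ?_, ?_⟩
    · rw [List.range_succ]
      refine List.perm_middle.trans ?_
      rw [hAB]
      exact (hl'.cons m).trans (List.perm_append_singleton m _).symm
    · rw [List.map_append, List.prod_append, List.map_cons, List.prod_cons,
        move h (by omega) _ hmem, hB, ← mul_assoc, ← h.cent, mul_assoc, ← mul_assoc (List.prod _),
        ← List.prod_append, ← List.map_append, hAB, hp, List.range_succ, List.map_append,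
        List.prod_append, List.map_singleton, List.prod_singleton, ← mul_assoc, ← mul_assoc,
        ← mul_assoc, ← h.add, ← Nat.cast_add, mul_comm r, hN2]

lemma exists_central (h : Good ζ g n) {l l' : List ℕ} (hl : l.Perm l') (hn : ∀ i ∈ l, i < n) :
    ∃ c, (l.map g).prod = ζ c * (l'.map g).prod := by
  induction hl with
  | nil => exact ⟨0, by simp [h.zero]⟩
  | cons x _ ih =>
    obtain ⟨c, hc⟩ := ih fun i hi => hn i (List.mem_cons_of_mem _ hi)
    refine ⟨c, ?_⟩
    rw [List.map_cons, List.prod_cons, hc, List.map_cons, List.prod_cons, ← mul_assoc,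
      ← h.cent, mul_assoc]
  | swap x y l =>
    have hx : x < n := hn x (by simp)
    have hy : y < n := hn y (by simp)
    simp only [List.map_cons, List.prod_cons, ← mul_assoc]
    rcases lt_trichotomy x y with hxy | rfl | hxy
    · exact ⟨_, by rw [h.comm x y hxy hy, ← mul_assoc]⟩
    · exact ⟨0, by rw [h.zero, one_mul]⟩
    · refine ⟨-(x.factorial : ZMod k), ?_⟩
      have h1 := h.comm y x hxy hx
      rw [mul_assoc (ζ _), h1, ← mul_assoc, ← h.add, neg_add_cancel, h.zero, one_mul]
  | trans h1 _ ih1 ih2 =>
    obtain ⟨c, hc⟩ := ih1 hn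
    obtain ⟨c', hc'⟩ := ih2 fun i hi => hn i (h1.mem_iff.2 hi)
    exact ⟨c + c', by rw [hc, hc', h.add, mul_assoc]⟩

lemma perm_list (σ : Equiv.Perm (Fin n)) :
    (List.ofFn fun i => ((σ i : Fin n) : ℕ)).Perm (List.range n) := by
  rw [List.perm_ext_iff_of_nodup]
  · intro a
    rw [List.mem_ofFn, List.mem_range]
    constructor
    · rintro ⟨i, rfl⟩
      exact (σ i).2
    · intro ha
      exact ⟨σ.symm ⟨a, ha⟩, by simp⟩
  · rw [List.nodup_ofFn]
    intro i j hij
    exact σ.injective (Fin.ext hij)
  · exact List.nodup_range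

lemma exists_perm {l : List ℕ} (hl : l.Perm (List.range n)) :
    ∃ σ : Equiv.Perm (Fin n), l = List.ofFn fun i => ((σ i : Fin n) : ℕ) := by
  have hlen : l.length = n := by rw [hl.length_eq, List.length_range]
  have hnd : l.Nodup := hl.nodup_iff.2 List.nodup_range
  subst hlen
  let f : Fin l.length → Fin l.length := fun i =>
    ⟨l.get i, List.mem_range.1 (hl.mem_iff.1 (List.get_mem l i))⟩
  have hf : Function.Injective f := by
    intro i j hij
    exact List.nodup_iff_injective_get.1 hnd (congrArg Fin.val hij)
  refine ⟨Equiv.ofBijective f (Finite.injective_iff_bijective.1 hf), ?_⟩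
  exact (List.ofFn_get l).symm

lemma ncard_P [NeZero k] (h : Good ζ g n) (hinj : Function.Injective ζ)
    (hk : k ≤ n.factorial) : (P fun i : Fin n => g i).ncard = k := by
  have e : (P fun i : Fin n => g i) =
      (fun c : ZMod k => ζ c * ((List.range n).map g).prod) '' Set.univ := by
    ext x
    constructor
    · rintro ⟨σ, rfl⟩
      obtain ⟨c, hc⟩ := exists_central h (perm_list σ) (fun i hi => by
        rw [List.mem_ofFn] at hi
        obtain ⟨j, rfl⟩ := hi
        exact (σ j).2)
      refine ⟨c, trivial, ?_⟩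
      rw [List.map_ofFn] at hc
      exact hc.symm
    · rintro ⟨c, -, rfl⟩
      obtain ⟨l, hl, hp⟩ := exists_list h n le_rfl c.val (lt_of_lt_of_le (ZMod.val_lt c) hk)
      obtain ⟨σ, rfl⟩ := exists_perm hl
      refine ⟨σ, ?_⟩
      rw [List.map_ofFn, ZMod.natCast_zmod_val] at hp
      exact hp.symm
  rw [e, Set.ncard_image_of_injective, Set.ncard_univ, Nat.card_zmod]
  intro a b hab
  exact hinj (mul_right_cancel hab)

end Abstract

/-- the bilinear map -/
def bil (n k : ℕ) (x y : ℕ → ℤ) : ZMod k :=
  ∑ j ∈ range n, ∑ i ∈ range j, ((x j * y i * j.factorial : ℤ) : ZMod k)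

lemma bil_add_left (n k : ℕ) (x x' y : ℕ → ℤ) :
    bil n k (x + x') y = bil n k x y + bil n k x' y := by
  simp only [bil, ← sum_add_distrib]
  refine sum_congr rfl fun j _ => sum_congr rfl fun i _ => ?_
  rw [Pi.add_apply]
  push_cast
  ring

lemma bil_add_right (n k : ℕ) (x y y' : ℕ → ℤ) :
    bil n k x (y + y') = bil n k x y + bil n k x y' := by
  simp only [bil, ← sum_add_distrib]
  refine sum_congr rfl fun j _ => sum_congr rfl fun i _ => ?_
  rw [Pi.add_apply]
  push_cast
  ring

lemma bil_zero_left (n k : ℕ) (y : ℕ → ℤ) : bil n k 0 y = 0 := by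
  simp [bil]

lemma bil_zero_right (n k : ℕ) (x : ℕ → ℤ) : bil n k x 0 = 0 := by
  simp [bil]

lemma bil_neg_left (n k : ℕ) (x y : ℕ → ℤ) : bil n k (-x) y = - bil n k x y := by
  have := bil_add_left n k x (-x) y
  rw [add_neg_cancel, bil_zero_left] at this
  exact (neg_eq_of_add_eq_zero_right this.symm).symm

/-- the group -/
@[ext] structure Ext (n k : ℕ) where
  /-- the central part -/
  c : ZMod k
  /-- the vector part -/
  v : ℕ → ℤ

instance (n k : ℕ) : Group (Ext n k) where
  mul a b := ⟨a.c + b.c + bil n k a.v b.v, a.v + b.v⟩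
  one := ⟨0, 0⟩
  inv a := ⟨-a.c + bil n k a.v a.v, -a.v⟩
  mul_assoc a b c := by
    apply Ext.ext
    · show a.c + b.c + bil n k a.v b.v + c.c + bil n k (a.v + b.v) c.v =
        a.c + (b.c + c.c + bil n k b.v c.v) + bil n k a.v (b.v + c.v)
      rw [bil_add_left, bil_add_right]
      ring
    · exact add_assoc _ _ _
  one_mul a := by
    apply Ext.ext
    · show 0 + a.c + bil n k 0 a.v = a.c
      rw [bil_zero_left, zero_add, add_zero]
    · exact zero_add _
  mul_one a := by
    apply Ext.ext
    · show a.c + 0 + bil n k a.v 0 = a.c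
      rw [bil_zero_right, add_zero, add_zero]
    · exact add_zero _
  inv_mul_cancel a := by
    apply Ext.ext
    · show -a.c + bil n k a.v a.v + a.c + bil n k (-a.v) a.v = 0
      rw [bil_neg_left]
      ring
    · exact neg_add_cancel _

lemma mul_c {n k : ℕ} (a b : Ext n k) : (a * b).c = a.c + b.c + bil n k a.v b.v := rfl
lemma mul_v {n k : ℕ} (a b : Ext n k) : (a * b).v = a.v + b.v := rfl

/-- the centre -/
def zeta (n k : ℕ) (c : ZMod k) : Ext n k := ⟨c, 0⟩

/-- the generators -/
def gen (n k : ℕ) (i : ℕ) : Ext n k := ⟨0, Pi.single i 1⟩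

lemma bil_single {n k i j : ℕ} (hij : i < j) (hj : j < n) :
    bil n k (Pi.single j 1) (Pi.single i 1) = j.factorial := by
  rw [bil, sum_eq_single j, sum_eq_single i]
  · simp
  · intro b _ hb
    rw [Pi.single_eq_of_ne hb]
    simp
  · intro h
    exact absurd (mem_range.2 hij) h
  · intro b _ hb
    rw [Pi.single_eq_of_ne hb]
    simp
  · intro h
    exact absurd (mem_range.2 hj) h

lemma bil_single' {n k i j : ℕ} (hij : i < j) :
    bil n k (Pi.single i 1) (Pi.single j 1) = 0 := by
  rw [bil]
  refine sum_eq_zero fun a _ => sum_eq_zero fun b hb => ?_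
  rw [mem_range] at hb
  by_cases h : a = i
  · have h2 : b ≠ j := by omega
    rw [Pi.single_eq_of_ne h2]
    simp
  · rw [Pi.single_eq_of_ne h]
    simp

lemma good (n k : ℕ) : Good (zeta n k) (gen n k) n where
  zero := rfl
  add a b := by
    apply Ext.ext
    · show a + b = a + b + bil n k 0 0
      rw [bil_zero_left, add_zero]
    · exact (add_zero 0).symm
  cent a x := by
    apply Ext.ext
    · rw [mul_c, mul_c]
      show a + x.c + bil n k 0 x.v = x.c + a + bil n k x.v 0
      rw [bil_zero_left, bil_zero_right, add_comm a]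
    · rw [mul_v, mul_v]
      exact add_comm _ _
  comm i j hij hj := by
    apply Ext.ext
    · rw [mul_c, mul_c, mul_c]
      show (0 : ZMod k) + 0 + bil n k (Pi.single j 1) (Pi.single i 1) =
        (j.factorial : ZMod k) + (0 + 0 + bil n k (Pi.single i 1) (Pi.single j 1)) +
          bil n k 0 _
      rw [bil_single hij hj, bil_single' hij, bil_zero_left]
      ring
    · rw [mul_v, mul_v, mul_v]
      show (Pi.single j 1 : ℕ → ℤ) + Pi.single i 1 = 0 + (Pi.single i 1 + Pi.single j 1)
      rw [zero_add, add_comm]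

/-- **For all `n` and `1 ≤ k ≤ n!` there are `n` distinct elements of a group whose products in all
possible orders take exactly `k` values.** -/
theorem result (n k : ℕ) (h1 : 1 ≤ k) (hk : k ≤ n.factorial) :
    ∃ (G : Type) (_ : Group G) (g : Fin n → G), Function.Injective g ∧ (P g).ncard = k := by
  have : NeZero k := ⟨by omega⟩
  refine ⟨Ext n k, inferInstance, fun i => gen n k i, ?_, ?_⟩
  · intro i j hij
    have h2 : (Pi.single (i : ℕ) 1 : ℕ → ℤ) = Pi.single (j : ℕ) 1 := congrArg Ext.v hij
    have h3 := congrFun h2 i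
    rw [Pi.single_eq_same] at h3
    by_contra hne
    have h4 : (i : ℕ) ≠ j := fun h => hne (Fin.ext h)
    rw [Pi.single_eq_of_ne h4] at h3
    exact one_ne_zero h3
  · exact ncard_P (good n k) (fun a b hab => congrArg Ext.c hab) hk

end Pool.Agent.Results.MP_71df81_al.PermutedProducts
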